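import Pool.Agent.H1.LacA

namespace Pool.Agent.Results.MP_653b50_an.Disproof

open Real Filter Topology Set InnerProductSpace Pool.Agent.H1.Lac

/-- `u` is harmonic in each variable separately on the product of upper half-planes. -/
def MultiHarm {n : ℕ} (u : (Fin n → ℂ) → ℝ) : Prop :=
  ∀ z : Fin n → ℂ, (∀ j, 0 < (z j).im) → ∀ j, HarmonicAt (fun w => u (Function.update z j w)) (z j)

/-- the region `R` of comparable heights -/
def Reg (n : ℕ) (c₁ c₂ : ℝ) : Set (Fin n → ℂ) :=
  {z | (∀ j, 0 < (z j).im) ∧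
    ∀ j k, j < k → c₁ ≤ (z j).im / (z k).im ∧ (z j).im / (z k).im ≤ c₂}

/-- the product cone `Γ(x)` -/
def Cone {n : ℕ} (x : Fin n → ℝ) : Set (Fin n → ℂ) := {z | ∀ j, |(z j).re - x j| < (z j).im}

/-- For every `n ≥ 2` and `0 < c₁ ≤ c₂` with `R` nonempty there is a multiply harmonic function,
bounded on `R`, with a restricted limit at no boundary point. -/
theorem result (n : ℕ) (hn : 2 ≤ n) (c₁ c₂ : ℝ) (hc : 0 < c₁) (_hc' : c₁ ≤ c₂)
    (hR : (Reg n c₁ c₂).Nonempty) : ∃ u : (Fin n → ℂ) → ℝ, MultiHarm u ∧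
    (∃ M, ∀ z ∈ Reg n c₁ c₂, |u z| ≤ M) ∧
    ∀ x : Fin n → ℝ, ¬ ∃ l : ℝ,
      Tendsto u (𝓝[Cone x ∩ Reg n c₁ c₂] (fun j => (x j : ℂ))) (𝓝 l) := by
  set i0 : Fin n := ⟨0, by omega⟩
  set i1 : Fin n := ⟨1, by omega⟩
  have h01 : i0 < i1 := by simp [i0, i1]
  refine ⟨fun z => (z i0).im * (f (z i1)).re, fun z hz j => ?_, ⟨c₂ * 4, fun z hz => ?_⟩,
    fun x ⟨l, hl⟩ => ?_⟩
  · by_cases a : j = i0
    · subst a
      simp only [Function.update_self, Function.update_of_ne h01.ne']
      have : AnalyticAt ℂ (fun w : ℂ => w * ((f (z i1)).re : ℝ)) (z i0) := by fun_prop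
      simpa using this.harmonicAt_im
    · by_cases b : j = i1
      · subst b
        simp only [Function.update_self, Function.update_of_ne h01.ne]
        exact (f_an (hz i1)).harmonicAt_re.const_smul
      · simp [Function.update_of_ne (Ne.symm a), Function.update_of_ne (Ne.symm b)]
  · have h1 := (div_le_iff₀ (hz.1 i1)).1 (hz.2 i0 i1 h01).2
    have h2 := f_bdd (hz.1 i1)
    have h3 : 0 < c₂ := by linarith
    rw [abs_mul, abs_of_pos (hz.1 i0)]
    calc _ ≤ c₂ * (z i1).im * ‖f (z i1)‖ := 
          mul_le_mul h1 (Complex.abs_re_le_norm _) (abs_nonneg _) ((hz.1 i0).le.trans h1)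
      _ ≤ _ := by rw [mul_assoc]; gcongr
  · obtain ⟨p, hp⟩ := hR
    have key : ∀ α : ℝ, |l / ((p i0).im / (p i1).im) - 4 * exp (-4) * cos α| ≤ 1 / 100 := by
      intro α
      choose s hs1 hs2 using fun k => phase k (x i1) α
      set Z : ℕ → Fin n → ℂ := fun k j =>
        ⟨if j = i1 then s k else x j, (p j).im / (p i1).im * (4 / 1000 ^ k)⟩ with hZ
      have p0 := hp.1
      have hy : ∀ k j, 0 < (Z k j).im := fun k j => by
        have := p0 j; have := p0 i1; simp only [hZ]; positivity
      have e1 : ∀ k, (Z k i1).im = 4 / 1000 ^ k := fun k => by simp [hZ, (p0 i1).ne']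
      have t0 : Tendsto (fun k : ℕ => (4 : ℝ) / 1000 ^ k) atTop (𝓝 0) :=
        tendsto_const_nhds.div_atTop (tendsto_pow_atTop_atTop_of_one_lt (by norm_num))
      have hc : ∀ k j, |(Z k j).re - x j| < (Z k j).im := fun k j => by
        by_cases b : j = i1
        · subst b; rw [e1]; simpa [hZ] using hs1 k
        · simpa [hZ, b] using hy k j
      have hT : Tendsto Z atTop (𝓝[Cone x ∩ Reg n c₁ c₂] (fun j => (x j : ℂ))) := by
        refine tendsto_nhdsWithin_iff.2 ⟨tendsto_pi_nhds.2 fun j => ?_,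
          Eventually.of_forall fun k => ⟨hc k, hy k, fun j j' h => ?_⟩⟩
        · rw [tendsto_iff_norm_sub_tendsto_zero]
          refine squeeze_zero (fun _ => norm_nonneg _) (g := fun k =>
            2 * ((p j).im / (p i1).im) * (4 / 1000 ^ k)) (fun k => ?_) (by simpa using t0.const_mul _)
          have := Complex.norm_le_abs_re_add_abs_im (Z k j - x j)
          rw [Complex.sub_re, Complex.sub_im, Complex.ofReal_re, Complex.ofReal_im, sub_zero,
            abs_of_pos (hy k j)] at this
          have h2 := hc k j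
          simp only [hZ] at this h2 ⊢
          linarith
        · have : (Z k j).im / (Z k j').im = (p j).im / (p j').im := by
            have := p0 j'; have := p0 i1; simp only [hZ]; field_simp
          rw [this]; exact hp.2 j j' h
      refine le_of_tendsto' ((((hl.comp hT).div_const ((p i0).im / (p i1).im)).sub_const
        (4 * exp (-4) * cos α)).abs) fun k => ?_
      have := f_main k (e1 k)
      rw [show (Z k i1).re = s k by simp [hZ], hs2, e1] at this
      have e : (Z k i0).im * (f (Z k i1)).re / ((p i0).im / (p i1).im)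
          = 4 / 1000 ^ k * (f (Z k i1)).re := by
        have := p0 i0; have := p0 i1
        rw [show (Z k i0).im = (p i0).im / (p i1).im * (4 / 1000 ^ k) from rfl]; field_simp
      exact e ▸ this
    have h1 := abs_le.1 (key 0)
    have h2 := abs_le.1 (key π)
    rw [cos_zero] at h1
    rw [cos_pi] at h2
    linarith [big]

end Pool.Agent.Results.MP_653b50_an.Disproof
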